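import Pool.Agent.Y657.CQ.BOX
import Pool.Agent.Y687.JQ.Stm

/-! JQ-BOX: the joint count in a box (adapted from `Pool.Agent.Y657.CQ.BOX` of helper657). -/

set_option autoImplicit false

open scoped Classical

namespace Pool.Agent.Y697.JQ

open Finset
open Pool.Agent.Y703.CQ
open Pool.Agent.Y657.CQ (Lb lb LN nr_self nr_symm nd_iff sum_un ext_sum HB_sub)
open Pool.Agent.Y687.JQ

/-- the part of `A` in the type `S₁` -/
noncomputable def pt (S₁ A : Finset ℕ) : Finset S₁ := univ.filter fun u : S₁ => (u : ℕ) ∈ A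

/-- the elements `1` modulo `8` -/
noncomputable def ue (S₁ : Finset ℕ) : Finset S₁ := univ.filter fun u : S₁ => (u : ℕ) % 8 = 1

theorem mem_pt {S₁ A : Finset ℕ} (u : S₁) : u ∈ pt S₁ A ↔ (u : ℕ) ∈ A := by
  unfold pt
  simp

theorem mem_ue {S₁ : Finset ℕ} (u : S₁) : u ∈ ue S₁ ↔ (u : ℕ) % 8 = 1 := by
  unfold ue
  simp

theorem sum_pt {S₁ T : Finset ℕ} (hT : T ⊆ S₁) (h : ℕ → ZMod 2) :
    ∑ x ∈ T, h x = ∑ u ∈ pt S₁ T, h u := by
  unfold pt
  rw [Finset.sum_filter, Finset.sum_coe_sort S₁ (fun x => if x ∈ T then h x else 0),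
    Finset.sum_ite_mem, Finset.inter_eq_right.2 hT]

theorem add_pt {S₁ A B : Finset ℕ} (h : S₁ → ZMod 2) :
    ∑ u ∈ pt S₁ A, h u + ∑ u ∈ pt S₁ B, h u = ∑ u ∈ pt S₁ (symmDiff A B), h u := by
  unfold pt
  rw [Finset.sum_filter, Finset.sum_filter, Finset.sum_filter, ← Finset.sum_add_distrib]
  refine Finset.sum_congr rfl fun u _ => ?_
  by_cases h1 : (u : ℕ) ∈ A
  · by_cases h2 : (u : ℕ) ∈ B
    · have h3 : (u : ℕ) ∉ symmDiff A B := by
        rw [Finset.mem_symmDiff]
        tauto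
      rw [if_pos h1, if_pos h2, if_neg h3]
      exact CharTwo.add_self_eq_zero _
    · have h3 : (u : ℕ) ∈ symmDiff A B := by
        rw [Finset.mem_symmDiff]
        tauto
      rw [if_pos h1, if_neg h2, if_pos h3, add_zero]
  · by_cases h2 : (u : ℕ) ∈ B
    · have h3 : (u : ℕ) ∈ symmDiff A B := by
        rw [Finset.mem_symmDiff]
        tauto
      rw [if_neg h1, if_pos h2, if_pos h3, zero_add]
    · have h3 : (u : ℕ) ∉ symmDiff A B := by
        rw [Finset.mem_symmDiff]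
        tauto
      rw [if_neg h1, if_neg h2, if_neg h3, add_zero]

theorem sd_sd (S₀ U V : Finset ℕ) : symmDiff (symmDiff S₀ U) (symmDiff S₀ V) = symmDiff U V := by
  ext x
  simp only [Finset.mem_symmDiff]
  tauto

section one
variable {ι : Type} [Fintype ι] [LinearOrder ι] {J1 : Finset ι} {S₁ T : Finset ℕ} {p : ι → ℕ}
  (f : ℕ → ZMod 2)

theorem gdM_iff (hT : T ⊆ S₁) (hp : Function.Injective p) (hpr : ∀ i, (p i).Prime ∧ p i ≠ 2)
    (hd : ∀ i, p i ∉ S₁) (hJ : ∀ i, p i % 8 = 1 ↔ i ∈ J1) :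
    Gd f (T ∪ univ.image p) ↔ GdM (pt S₁ T) (ue S₁) J1
      (fun u v : S₁ => nr u v) (fun (u : S₁) l => nr u (p l)) (fun k (u : S₁) => nr (p k) u)
      (Pool.Agent.Y703.CQ.ext fun e : prs J1 => nr (p e.1.1) (p e.1.2))
      (fun u : S₁ => f u) (fun k => f (p k)) := by
  have hdT : ∀ i, p i ∉ T := fun i hi => hd i (hT hi)
  have hsol : ∀ x : ℕ → ZMod 2, Sol f (T ∪ univ.image p) x ↔
      (∀ u : S₁, (u : ℕ) ∈ T → (u : ℕ) % 8 = 1 →
        ∑ v ∈ pt S₁ T, nr u v * (cu x v + x u) +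
        ∑ l, nr u (p l) * (cu x (p l) + x u) + f u * x u = 0) ∧
      (∀ k ∈ J1, ∑ u ∈ pt S₁ T, nr (p k) u * (cu x u + x (p k)) +
        ∑ l, Pool.Agent.Y703.CQ.ext (fun e : prs J1 => nr (p e.1.1) (p e.1.2)) k l *
          (cu x (p l) + x (p k)) + f (p k) * x (p k) = 0) := by
    intro x
    have hs : ∀ h : ℕ → ZMod 2, ∑ x ∈ T ∪ univ.image p, h x =
        ∑ u ∈ pt S₁ T, h u + ∑ l, h (p l) := by
      intro h
      rw [sum_un hp hdT, Finset.sum_coe_sort T (fun x => h x), sum_pt hT]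
    unfold Sol
    constructor
    · intro h
      refine ⟨fun u huT hu => ?_, fun k hk => ?_⟩
      · have := h u (Finset.mem_union_left _ huT) hu
        rw [hs] at this
        exact this
      · have := h (p k) (Finset.mem_union_right _ (Finset.mem_image_of_mem _ (Finset.mem_univ _)))
          ((hJ k).2 hk)
        rw [hs] at this
        rw [ext_sum hpr hJ k hk (fun l => cu x (p l))]
        exact this
    · rintro ⟨h1, h2⟩ y hy hy1
      rw [hs]
      rw [Finset.mem_union, Finset.mem_image] at hy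
      rcases hy with hy | ⟨k, -, rfl⟩
      · exact h1 ⟨y, hT hy⟩ hy hy1
      · have hk := (hJ k).1 hy1
        have := h2 k hk
        rw [ext_sum hpr hJ k hk (fun l => cu x (p l))] at this
        exact this
  unfold Gd GdM
  constructor
  · intro h c d hc0 hcm hd0 h1 h2
    set c' : ℕ → ZMod 2 := fun n => if h : n ∈ S₁ then c ⟨n, h⟩ else
      if h : ∃ l, p l = n then d h.choose else 0 with hc'
    have e1 : ∀ u : S₁, c' u = c u := by
      intro u
      simp only [hc']
      rw [dif_pos u.2]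
    have e2 : ∀ l, c' (p l) = d l := by
      intro l
      have hex : ∃ l', p l' = p l := ⟨l, rfl⟩
      simp only [hc']
      rw [dif_neg (hd l), dif_pos hex]
      exact congrArg d (hp hex.choose_spec)
    have e3 : ∀ u : S₁, cu c' u = c u := by
      intro u
      unfold cu
      split_ifs with h8
      · exact e1 u
      · exact (hc0 u fun hu => h8 ((mem_ue u).1 hu)).symm
    have e4 : ∀ l, cu c' (p l) = d l := by
      intro l
      unfold cu
      split_ifs with h8
      · exact e2 l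
      · exact (hd0 l fun hl => h8 ((hJ l).2 hl)).symm
    have hs : Sol f (T ∪ univ.image p) c' := by
      rw [hsol]
      refine ⟨fun u huT hu => ?_, fun k hk => ?_⟩
      · simp only [e1, e3, e4]
        exact h1 u ((mem_ue u).2 hu) ((mem_pt u).2 huT)
      · simp only [e2, e3, e4]
        exact h2 k hk
    have h3 := h c' hs
    refine ⟨fun u => ?_, fun l => ?_⟩
    · by_cases h8 : (u : ℕ) % 8 = 1
      · by_cases huT : (u : ℕ) ∈ T
        · rw [← e1]
          exact h3 _ (Finset.mem_union_left _ huT) h8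
        · exact hcm u fun hu => huT ((mem_pt u).1 hu)
      · exact hc0 u fun hu => h8 ((mem_ue u).1 hu)
    · by_cases h8 : p l % 8 = 1
      · rw [← e2]
        exact h3 _ (Finset.mem_union_right _ (Finset.mem_image_of_mem _ (Finset.mem_univ _))) h8
      · exact hd0 l fun hl => h8 ((hJ l).2 hl)
  · intro h x hx
    rw [hsol] at hx
    have hcu : ∀ q : ℕ, q % 8 = 1 → cu x q = x q := by
      intro q hq
      unfold cu
      rw [if_pos hq]
    set c : S₁ → ZMod 2 := fun u => if (u : ℕ) ∈ T then cu x u else 0 with hc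
    have hcT : ∀ u : S₁, (u : ℕ) ∈ T → c u = cu x u := by
      intro u hu
      simp only [hc]
      rw [if_pos hu]
    have hsc : ∀ (g : S₁ → ZMod 2) (a : ZMod 2), ∑ v ∈ pt S₁ T, g v * (c v + a) =
        ∑ v ∈ pt S₁ T, g v * (cu x v + a) := by
      intro g a
      refine Finset.sum_congr rfl fun v hv => ?_
      rw [hcT v ((mem_pt v).1 hv)]
    obtain ⟨ht1, ht2⟩ := h c (fun l => cu x (p l))
      (fun u hu => by
        have h8 : ¬ (u : ℕ) % 8 = 1 := fun h8 => hu ((mem_ue u).2 h8)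
        simp only [hc]
        split_ifs
        · unfold cu
          rw [if_neg h8]
        · rfl)
      (fun u hu => by
        simp only [hc]
        rw [if_neg fun h' => hu ((mem_pt u).2 h')])
      (fun k hk => by
        have h8 : ¬ p k % 8 = 1 := fun h8 => hk ((hJ k).1 h8)
        unfold cu
        rw [if_neg h8])
      (fun u hu huT => by
        have h8 := (mem_ue u).1 hu
        have huT' := (mem_pt u).1 huT
        have := hx.1 u huT' h8
        rw [hsc, hcT u huT']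
        rw [← hcu u h8] at this
        exact this)
      (fun k hk => by
        have h8 := (hJ k).2 hk
        have := hx.2 k hk
        rw [hsc]
        rw [← hcu (p k) h8] at this
        exact this)
    intro y hy hy8
    rw [Finset.mem_union, Finset.mem_image] at hy
    rcases hy with hy | ⟨k, -, rfl⟩
    · rw [← hcu y hy8, ← hcT ⟨y, hT hy⟩ hy]
      exact ht1 ⟨y, hT hy⟩
    · rw [← hcu _ hy8]
      exact ht2 k

end one

/-- the good labels -/
def LJ {ι : Type} (R : ℕ) (S₁ : Finset ℕ) (𝒰 : Finset (Finset ℕ)) (J1 : Finset ι)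
    (β : ι → Lb S₁) : Prop :=
  LN S₁ J1 β ∧ 2 * S₁.card + R ≤ J1.card ∧ ∀ U ∈ 𝒰, ∀ U' ∈ 𝒰, U ≠ U' →
    2 * S₁.card + R ≤ (J1.filter fun i => ∑ u ∈ pt S₁ (symmDiff U U'), (β i).2.1 u ≠ 0).card

theorem ndJ_iff {ι : Type} [Fintype ι] {J1 : Finset ι} {S₀ W : Finset ℕ}
    {𝒰 : Finset (Finset ℕ)} {p : ι → ℕ} (f : ℕ → ZMod 2) (R : ℕ) (hU : ∀ U ∈ 𝒰, U ⊆ W)
    (hp : Function.Injective p) (hJ : ∀ i, p i % 8 = 1 ↔ i ∈ J1) :
    NdJ R W 𝒰 S₀ (univ.image p) ↔ LJ R (S₀ ∪ W) 𝒰 J1 (fun i => lb f (S₀ ∪ W) (p i)) := by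
  unfold NdJ LJ
  have h1 : ((univ.image p).filter fun q => q % 8 = 1).card = J1.card := by
    have h2 : (univ.image p).filter (fun q => q % 8 = 1) = J1.image p := by
      ext q
      simp only [Finset.mem_filter, Finset.mem_image, Finset.mem_univ, true_and]
      constructor
      · rintro ⟨⟨i, rfl⟩, h⟩
        exact ⟨i, (hJ i).1 h, rfl⟩
      · rintro ⟨i, hi, rfl⟩
        exact ⟨⟨i, rfl⟩, (hJ i).2 hi⟩
    rw [h2, Finset.card_image_of_injective _ hp]
  have h3 : ∀ U ∈ 𝒰, ∀ U' ∈ 𝒰,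
      ((univ.image p).filter fun q => q % 8 = 1 ∧ ∑ u ∈ symmDiff U U', nr q u ≠ 0).card =
      (J1.filter fun i => ∑ u ∈ pt (S₀ ∪ W) (symmDiff U U'),
        (lb f (S₀ ∪ W) (p i)).2.1 u ≠ 0).card := by
    intro U hU1 U' hU2
    have hs : symmDiff U U' ⊆ S₀ ∪ W := by
      intro x hx
      rw [Finset.mem_symmDiff] at hx
      rw [Finset.mem_union]
      rcases hx with hx | hx
      · exact Or.inr (hU U hU1 hx.1)
      · exact Or.inr (hU U' hU2 hx.1)
    have h4 : (univ.image p).filter (fun q => q % 8 = 1 ∧ ∑ u ∈ symmDiff U U', nr q u ≠ 0) =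
        (J1.filter fun i => ∑ u ∈ pt (S₀ ∪ W) (symmDiff U U'),
        (lb f (S₀ ∪ W) (p i)).2.1 u ≠ 0).image p := by
      ext q
      simp only [Finset.mem_filter, Finset.mem_image, Finset.mem_univ, true_and]
      constructor
      · rintro ⟨⟨i, rfl⟩, h5, h6⟩
        refine ⟨i, ⟨(hJ i).1 h5, ?_⟩, rfl⟩
        rw [sum_pt hs] at h6
        exact h6
      · rintro ⟨i, ⟨hi, h6⟩, rfl⟩
        refine ⟨⟨i, rfl⟩, (hJ i).2 hi, ?_⟩
        rw [sum_pt hs]
        exact h6
    rw [h4, Finset.card_image_of_injective _ hp]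
  rw [nd_iff f hJ, h1]
  refine and_congr_right fun _ => and_congr_right fun _ => ?_
  constructor
  · intro h U hU1 U' hU2 hne
    rw [← h3 U hU1 U' hU2]
    exact h U hU1 U' hU2 hne
  · intro h U hU1 U' hU2 hne
    rw [h3 U hU1 U' hU2]
    exact h U hU1 U' hU2 hne

theorem sd_union {S₀ W V P : Finset ℕ} (hV : V ⊆ W) (hP : ∀ x ∈ P, x ∉ S₀ ∪ W) :
    symmDiff (S₀ ∪ P) V = symmDiff S₀ V ∪ P := by
  ext x
  have h1 : x ∈ V → x ∈ W := fun h => hV h
  have h2 : x ∈ P → x ∉ W := fun h h' => hP x h (Finset.mem_union_right _ h')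
  simp only [Finset.mem_symmDiff, Finset.mem_union]
  tauto

theorem sd_sub {S₀ W V : Finset ℕ} (hV : V ⊆ W) : symmDiff S₀ V ⊆ S₀ ∪ W := by
  intro x hx
  rw [Finset.mem_symmDiff] at hx
  rw [Finset.mem_union]
  rcases hx with hx | hx
  · exact Or.inl hx.1
  · exact Or.inr (hV hx.1)

/-- **The joint count in a box.** -/
theorem t_JBOX : S_JBOX := by
  intro hEQ hJLA M ε hε
  obtain ⟨R₀, hLA⟩ := hJLA M ε hε
  refine ⟨R₀, ?_⟩
  intro f ι _ _ J1 C X κ S₀ W 𝒰 hM hUW hκ hCX hHB hS₁ hC hdis hne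
  set S₁ := S₀ ∪ W with hS₁d
  set R : ℝ := 2 ^ (prs J1).card * (κ * ∏ j, (X j : ℝ)) with hR
  have hR0 : 0 ≤ R := mul_nonneg (by positivity)
    (mul_nonneg hκ (Finset.prod_nonneg fun j _ => by positivity))
  -- the masks
  set e : 𝒰 ≃ Fin M := Finset.equivFinOfCardEq hM with he
  set Vm : Fin M → Finset ℕ := fun i => ((e.symm i : 𝒰) : Finset ℕ) with hVm
  have hVU : ∀ i, Vm i ∈ 𝒰 := fun i => (e.symm i).2
  have hVW : ∀ i, Vm i ⊆ W := fun i => hUW _ (hVU i)
  have hVi : ∀ i j, i ≠ j → Vm i ≠ Vm j := by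
    intro i j hij h
    exact hij (e.symm.injective (Subtype.ext h))
  have hVs : ∀ U ∈ 𝒰, ∃ i, Vm i = U := by
    intro U hU
    refine ⟨e ⟨U, hU⟩, ?_⟩
    simp only [hVm, Equiv.symm_apply_apply]
  -- facts on tuples
  have hinj : ∀ p ∈ Fintype.piFinset C, Function.Injective p := by
    intro p hp i j hij
    rw [Fintype.mem_piFinset] at hp
    by_contra hne
    have h1 := Finset.disjoint_left.1 (hdis i j hne) (hp i)
    rw [hij] at h1
    exact h1 (hp j)
  have hJ : ∀ p ∈ Fintype.piFinset C, ∀ i, p i % 8 = 1 ↔ i ∈ J1 := by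
    intro p hp i
    rw [Fintype.mem_piFinset] at hp
    exact (hC i _ (hp i)).2.2.2.symm
  have hd : ∀ p ∈ Fintype.piFinset C, ∀ i, p i ∉ S₁ := by
    intro p hp i
    rw [Fintype.mem_piFinset] at hp
    exact (hC i _ (hp i)).2.2.1
  have hpr : ∀ p ∈ Fintype.piFinset C, ∀ i, (p i).Prime ∧ p i ≠ 2 := by
    intro p hp i
    rw [Fintype.mem_piFinset] at hp
    exact ⟨(hC i _ (hp i)).1, (hC i _ (hp i)).2.1⟩
  have hU1 : (ue S₁).card ≤ S₁.card := by
    refine (Finset.card_le_univ _).trans ?_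
    rw [Fintype.card_coe]
  have hgd : ∀ p ∈ Fintype.piFinset C, (GdJ f 𝒰 (S₀ ∪ univ.image p) ↔
      ∀ i, GdM (pt S₁ (symmDiff S₀ (Vm i))) (ue S₁) J1
      (fun u v : S₁ => nr u v) (fun (u : S₁) l => nr u (p l)) (fun k (u : S₁) => nr (p k) u)
      (Pool.Agent.Y703.CQ.ext fun e : prs J1 => nr (p e.1.1) (p e.1.2))
      (fun u : S₁ => f u) (fun k => f (p k))) := by
    intro p hp
    have hP : ∀ x ∈ univ.image p, x ∉ S₀ ∪ W := by
      intro x hx
      rw [Finset.mem_image] at hx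
      obtain ⟨i, -, rfl⟩ := hx
      exact hd p hp i
    have h1 : ∀ i, (Gd f (symmDiff (S₀ ∪ univ.image p) (Vm i)) ↔
        GdM (pt S₁ (symmDiff S₀ (Vm i))) (ue S₁) J1
        (fun u v : S₁ => nr u v) (fun (u : S₁) l => nr u (p l)) (fun k (u : S₁) => nr (p k) u)
        (Pool.Agent.Y703.CQ.ext fun e : prs J1 => nr (p e.1.1) (p e.1.2))
        (fun u : S₁ => f u) (fun k => f (p k))) := by
      intro i
      rw [sd_union (hVW i) hP]
      exact gdM_iff f (sd_sub (hVW i)) (hinj p hp) (hpr p hp) (hd p hp) (hJ p hp)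
    unfold GdJ
    constructor
    · intro h i
      exact (h1 i).1 (h _ (hVU i))
    · intro h U hU
      obtain ⟨i, rfl⟩ := hVs U hU
      exact (h1 i).2 (h i)
  -- the part with given labels
  have h1 : ∀ β : ι → Lb S₁, LJ R₀ S₁ 𝒰 J1 β →
      |(((Fintype.piFinset C).filter fun p => (fun i => lb f S₁ (p i)) = β ∧
          GdJ f 𝒰 (S₀ ∪ univ.image p)).card : ℝ) -
        c2 ^ M * (((Fintype.piFinset C).filter fun p =>
          (fun i => lb f S₁ (p i)) = β).card : ℝ)| ≤
      ε * (((Fintype.piFinset C).filter fun p => (fun i => lb f S₁ (p i)) = β).card : ℝ) + R := by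
    intro β hβ
    by_cases hemp : ((Fintype.piFinset C).filter fun p => (fun i => lb f S₁ (p i)) = β) = ∅
    · have he2 : ((Fintype.piFinset C).filter fun p => (fun i => lb f S₁ (p i)) = β ∧
          GdJ f 𝒰 (S₀ ∪ univ.image p)) = ∅ := by
        rw [← Finset.filter_filter, hemp, Finset.filter_empty]
      rw [he2, hemp]
      simpa using hR0
    obtain ⟨p₀, hp₀⟩ := Finset.nonempty_iff_ne_empty.2 hemp
    rw [Finset.mem_filter] at hp₀
    obtain ⟨hp₀, hp₀β⟩ := hp₀
    set C' : ι → Finset ℕ := fun i => (C i).filter fun q => lb f S₁ q = β i with hC'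
    have hpi : (Fintype.piFinset C).filter (fun p => (fun i => lb f S₁ (p i)) = β) =
        Fintype.piFinset C' := by
      ext p
      simp only [Finset.mem_filter, Fintype.mem_piFinset, hC']
      constructor
      · rintro ⟨h2, h3⟩ i
        exact ⟨h2 i, congrFun h3 i⟩
      · intro h2
        exact ⟨fun i => (h2 i).1, funext fun i => (h2 i).2⟩
    have h2 := hLA S₁ ι (ue S₁) J1 hne (fun i => pt S₁ (symmDiff S₀ (Vm i)))
      (fun u v => nr u v) (fun u l => (β l).1 u) (fun k u => (β k).2.1 u) (fun u => f u)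
      (fun k => (β k).2.2)
      (by
        intro u hu v hv
        exact nr_symm (hS₁ u u.2).1 ((mem_ue u).1 hu) (hS₁ v v.2).1 (hS₁ v v.2).2)
      (by
        intro u hu k hk
        have h3 := congrFun hp₀β k
        rw [← h3]
        exact nr_symm (hS₁ u u.2).1 ((mem_ue u).1 hu) (hpr p₀ hp₀ k).1 (hpr p₀ hp₀ k).2)
      (by
        rintro w hw0 ⟨u, hu⟩
        have hu8 : (u : ℕ) % 8 = 1 := by
          by_contra h8
          exact hu (hw0 u fun hu' => h8 ((mem_ue u).1 hu'))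
        obtain ⟨k, hk, hk2⟩ := hβ.1 w ⟨u, hu8, hu⟩
        refine ⟨k, hk, ?_⟩
        rw [Finset.sum_filter] at hk2
        intro h0
        apply hk2
        refine Eq.trans ?_ h0
        refine Finset.sum_congr rfl fun v _ => ?_
        split_ifs with h8
        · rfl
        · rw [hw0 v fun hv => h8 ((mem_ue v).1 hv), zero_mul])
      (by
        have h3 := hβ.2.1
        omega)
      (by
        intro i j hij
        have h3 := hβ.2.2 (Vm i) (hVU i) (Vm j) (hVU j) (hVi i j hij)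
        have h4 : (J1.filter fun k => ∑ u ∈ pt S₁ (symmDiff S₀ (Vm i)), (β k).2.1 u +
            ∑ u ∈ pt S₁ (symmDiff S₀ (Vm j)), (β k).2.1 u ≠ 0) =
            (J1.filter fun k => ∑ u ∈ pt S₁ (symmDiff (Vm i) (Vm j)), (β k).2.1 u ≠ 0) := by
          refine Finset.filter_congr fun k _ => ?_
          rw [add_pt, sd_sd]
        rw [h4]
        omega)
    obtain ⟨Q, hQ⟩ : ∃ Q : (prs J1 → ZMod 2) → Prop, ∀ α, Q α ↔ ∀ i,
      GdM (pt S₁ (symmDiff S₀ (Vm i))) (ue S₁)
      J1 (fun u v : S₁ => nr u v) (fun (u : S₁) l => (β l).1 u) (fun k (u : S₁) => (β k).2.1 u)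
      (Pool.Agent.Y703.CQ.ext α) (fun u : S₁ => f u) (fun k => (β k).2.2) :=
      ⟨_, fun _ => Iff.rfl⟩
    have h3 := hEQ ι J1 C' X κ hκ
      (fun i => (Finset.card_le_card (Finset.filter_subset _ _)).trans (hCX i))
      (HB_sub hHB fun i q => lb f S₁ q = β i) Q
    have h4 : ((Fintype.piFinset C).filter fun p => (fun i => lb f S₁ (p i)) = β ∧
        GdJ f 𝒰 (S₀ ∪ univ.image p)) = ((Fintype.piFinset C').filter fun p =>
          Q fun e => nr (p e.1.1) (p e.1.2)) := by
      rw [← hpi, Finset.filter_filter]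
      refine Finset.filter_congr fun p hp => ?_
      refine and_congr_right fun hl => ?_
      rw [hgd p hp, hQ]
      subst hl
      exact Iff.rfl
    have h5 : (((Fintype.piFinset C').card : ℕ) : ℝ) = ∏ j, ((C' j).card : ℝ) := by
      rw [Fintype.card_piFinset]
      push_cast
      rfl
    rw [h4, hpi, h5]
    have h2' : |((univ.filter Q).card : ℝ) / 2 ^ (prs J1).card - c2 ^ M| ≤ ε := by
      rw [Finset.filter_congr fun α _ => hQ α]
      exact h2
    set n : ℝ := (((Fintype.piFinset C').filter fun p =>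
          Q fun e => nr (p e.1.1) (p e.1.2)).card : ℝ) with hn
    set q : ℝ := ((univ.filter Q).card : ℝ) / 2 ^ (prs J1).card with hq
    set P : ℝ := ∏ j, ((C' j).card : ℝ) with hP
    have hP0 : 0 ≤ P := Finset.prod_nonneg fun j _ => by positivity
    have h6 : |n - c2 ^ M * P| ≤ |n - q * P| + |q - c2 ^ M| * P := by
      have h7 : n - c2 ^ M * P = (n - q * P) + (q - c2 ^ M) * P := by ring
      have h8 : |(q - c2 ^ M) * P| = |q - c2 ^ M| * P := by rw [abs_mul, abs_of_nonneg hP0]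
      rw [h7, ← h8]
      exact abs_add_le _ _
    have h7 : |q - c2 ^ M| * P ≤ ε * P := mul_le_mul_of_nonneg_right h2' hP0
    have h8 : |n - q * P| ≤ R := h3
    linarith
  -- sum over the labels
  set LL := univ.filter (fun β : ι → Lb S₁ => LJ R₀ S₁ 𝒰 J1 β) with hLL
  have hfib : ∀ T : (ι → ℕ) → Prop,
      (((Fintype.piFinset C).filter fun p => NdJ R₀ W 𝒰 S₀ (univ.image p) ∧ T p).card : ℝ) =
      ∑ β ∈ LL, (((Fintype.piFinset C).filter fun p =>
        (fun i => lb f S₁ (p i)) = β ∧ T p).card : ℝ) := by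
    intro T
    rw [Finset.card_eq_sum_card_fiberwise (f := fun (p : ι → ℕ) (i : ι) => lb f S₁ (p i))
      (t := LL) (by
        intro p hp
        rw [Finset.mem_coe, Finset.mem_filter] at hp
        rw [Finset.mem_coe, hLL, Finset.mem_filter]
        exact ⟨Finset.mem_univ _, (ndJ_iff f R₀ hUW (hinj p hp.1) (hJ p hp.1)).1 hp.2.1⟩)]
    push_cast
    refine Finset.sum_congr rfl fun β hβ => ?_
    rw [hLL, Finset.mem_filter] at hβ
    congr 2
    ext p
    simp only [Finset.mem_filter]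
    constructor
    · rintro ⟨⟨h3, h4, h4'⟩, h5⟩
      exact ⟨h3, h5, h4'⟩
    · rintro ⟨h3, h4, h5⟩
      refine ⟨⟨h3, ?_, h5⟩, h4⟩
      refine (ndJ_iff f R₀ hUW (hinj p h3) (hJ p h3)).2 ?_
      rw [← hS₁d, h4]
      exact hβ.2
  have hf1 := hfib fun p => GdJ f 𝒰 (S₀ ∪ univ.image p)
  have hf2 := hfib fun _ => True
  simp only [and_true] at hf2
  rw [hf1, hf2, Finset.mul_sum, ← Finset.sum_sub_distrib]
  refine (Finset.abs_sum_le_sum_abs _ _).trans ?_
  refine (Finset.sum_le_sum fun β hβ => h1 β (Finset.mem_filter.1 hβ).2).trans ?_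
  rw [Finset.sum_add_distrib, ← Finset.mul_sum, Finset.sum_const, nsmul_eq_mul]
  have h5 : ((LL.card : ℕ) : ℝ) ≤ 2 ^ ((2 * S₁.card + 1) * Fintype.card ι) := by
    have h6 : LL.card ≤ Fintype.card (ι → Lb S₁) := Finset.card_le_univ _
    rw [Fintype.card_fun, Fintype.card_prod, Fintype.card_prod, Fintype.card_fun, ZMod.card,
      Fintype.card_coe, ← pow_succ, ← pow_add, ← pow_mul] at h6
    have h7 : (S₁.card + (S₁.card + 1)) * Fintype.card ι = (2 * S₁.card + 1) * Fintype.card ι := by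
      ring
    rw [h7] at h6
    exact_mod_cast h6
  have h6 := mul_le_mul_of_nonneg_right h5 hR0
  rw [pow_add, mul_assoc]
  linarith

end Pool.Agent.Y697.JQ
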