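import Pool.Agent.Y697.CJ.LAJ2
import Pool.Agent.Y687.JQ.Stm

/-!
# Project JQ: the joint linear algebra
-/

set_option autoImplicit false

open scoped Classical

namespace Pool.Agent.Y697.JQ

open Finset
open Pool.Agent.Y703.CQ (prs GdA c2)
open Pool.Agent.Y687.JQ (S_JLA)

theorem gdM_eq {U J : Type} [Fintype U] [Fintype J] (m U1 : Finset U) (J1 : Finset J)
    (A : U → U → ZMod 2) (B : U → J → ZMod 2) (C : J → U → ZMod 2) (R : J → J → ZMod 2)
    (f : U → ZMod 2) (g : J → ZMod 2) :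
    Pool.Agent.Y687.JQ.GdM m U1 J1 A B C R f g ↔ Pool.Agent.Y697.CJ.GdM U1 J1 m A B C R f g := by
  have e1 : ∀ (h : U → ZMod 2), ∑ v ∈ m, h v = ∑ v, if v ∈ m then h v else 0 := by
    intro h
    rw [← sum_filter]
    congr 1
    ext v
    simp
  have e2 : ∀ (a : U → ZMod 2) (b : U → ZMod 2),
      ∑ v, (if v ∈ m then a v else 0) * b v = ∑ v ∈ m, a v * b v := by
    intro a b
    rw [e1]
    exact sum_congr rfl fun v _ => by rw [ite_mul, zero_mul]
  constructor
  · intro h x y hx hy h1 h2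
    refine h x y (fun u hu => hx u fun h' => hu (mem_inter.1 h').1)
      (fun u hu => hx u fun h' => hu (mem_inter.1 h').2) hy ?_ ?_
    · intro u hu hum
      have h3 := h1 u (mem_inter.2 ⟨hu, hum⟩)
      rw [e2] at h3
      exact h3
    · intro k hk
      have h3 := h2 k hk
      rw [e2] at h3
      exact h3
  · intro h x y hx hx' hy h1 h2
    refine h x y ?_ hy ?_ ?_
    · intro u hu
      by_cases hu1 : u ∈ U1
      · exact hx' u fun h' => hu (mem_inter.2 ⟨hu1, h'⟩)
      · exact hx u hu1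
    · intro u hu
      rw [mem_inter] at hu
      rw [e2]
      exact h1 u hu.1 hu.2
    · intro k hk
      rw [e2]
      exact h2 k hk

/-- **JQ-LA** -/
theorem t_JLA : S_JLA := by
  intro M ε hε
  obtain ⟨R, hR⟩ := Pool.Agent.Y697.CJ.laj_g M ε hε
  refine ⟨R, ?_⟩
  intro U J _ _ _ U1 J1 hJ m A B C f g hA hB hC h1 h2
  have h3 := hR U J U1 J1 hJ A B C f g hA hB hC m (2 * U1.card + R) le_rfl h1
    (fun k l hkl => h2 k l hkl)
  rw [Pool.Agent.Y697.CJ.gi_eq] at h3
  have h4 : (univ.filter fun α : prs J1 → ZMod 2 => ∀ i,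
      Pool.Agent.Y687.JQ.GdM (m i) U1 J1 A B C (Pool.Agent.Y703.CQ.ext α) f g) =
      univ.filter fun α : prs J1 → ZMod 2 => ∀ i,
      Pool.Agent.Y697.CJ.GdM U1 J1 (m i) A B C (Pool.Agent.Y703.CQ.ext α) f g := by
    ext α
    simp only [mem_filter, gdM_eq]
  rw [h4]
  exact h3

end Pool.Agent.Y697.JQ
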